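import Pool.Agent.Hx88.GD.Real

/-!
# The Gross-Deligne conjecture reduces to Hodge classes and imaginary cyclic fields

`F` is an abelian number field. The conjecture of Gross and Deligne for all the admissible triples
`(H, F, ι)` with this field `F` (for all smooth projective varieties `X` over the field of algebraic
numbers and all degrees `m`) is equivalent to the following statement on Hodge classes: for every
imaginary subfield `F'` of `F` which is cyclic over `ℚ`, every `X` and every admissible triple
`(H, F', ι)` for which `H` is a space of Hodge classes, of type `(c, c)`, all the periods `P_σ(H)` are
`(2 π i) ^ c` up to algebraic numbers. In particular the conjecture holds for real fields `F` (there is no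
`F'`), and the conjecture for all abelian fields is equivalent to the statement on Hodge classes for all
imaginary cyclic fields. So gamma values disappear from the problem, and only cyclic fields and
Hodge classes remain.

The cohomology is given by `Hx88.GD.Data` with the known theorems `IsTheory`: `B X m` is the homology
`H_m(X(ℂ), ℚ)`, its dual space is `H^m(X, ℚ)`, the space of the `ℚ`-linear maps `B X m → ℂ` is
`H^m(X, ℂ)`, with the Hodge decomposition `hodge` and with the image `dR` of the algebraic de Rham
cohomology. Used are the Künneth formula, a polarization of `H^m(X, ℚ)` with values in `ℚ(-m)`, and the
abelian varieties with complex multiplication (`cm`: the theorems of Shimura and Taniyama, of Anderson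
and of Koblitz and Ogus). An admissible triple `(H, F, ι)` is given by a surjective `ℚ`-linear map
`t : B X m → F` (`IsLine`): the dual space of `H` is a quotient of the homology and a line over `F`, `H`
is the space of the forms `γ ↦ Tr(f t(γ))` with `f ∈ F`, and `H_σ` is spanned by `σ ∘ t`.

The proof. (1) Let `H` be a line over `F` in `H^m(X)` with the function `p`. There is an abelian
variety `A` with complex multiplication with a line over `F` of type `m + 1 - p`, for which the conjecture
holds; the product (over `F`) of the two lines is a line in the cohomology of `X × A`, of Hodge classes,
and by the reflection formula the conjecture for `H` says that its periods are `(2 π i) ^ (m + 1)`. (2) For a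
line `t : B → F` of Hodge classes and a subgroup `N` of the Galois group of `F` with fixed field `F'` let
`t' = Tr_{F / F'}(∏_{n ∈ N} n(t))`, a line over `F'` in the cohomology of a power of `X`: its period at an
embedding `τ` is the product of the periods of `t` at all the embeddings of `F` which extend `τ`. (3) The
periods of conjugate embeddings have the product `(2 π i) ^ m`, by the polarization. (4) In the torsion
free group `ℂ^× / ℚ̄^×` a function on a finite abelian group `G` whose products over the cosets of all
subgroups `N` with cyclic quotient `G / N` are trivial is trivial (characters).
-/

set_option autoImplicit false

namespace Pool.Agent.Results.MP_b23d8d_ag.CyclicFieldsSuffice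

open Pool.Agent.Hx88.GD

/-- For an abelian number field `F`, the conjecture of Gross and Deligne holds for all the admissible
triples with the field `F` if and only if for all the imaginary cyclic subfields `F'` of `F` and all
the admissible triples `(H, F', ι)` of Hodge classes the periods are powers of `2 π i` up to
algebraic numbers. -/
theorem result (T : Data) (hT : T.IsTheory) (F : IntermediateField ℚ ℂ) (hF : IsAbelian F) :
    T.GrossDeligne F ↔ ∀ F' : IntermediateField ℚ ℂ, F' ≤ F → IsImaginary F' →
      IsCyclic (F' ≃+* F') → T.HodgeLines F' := by
  constructor
  · intro hG F' hF' him _
    obtain ⟨x, hx, hx'⟩ := him
    exact hodge_of_gd hT hF ⟨x, hF' hx, hx'⟩ hG hF'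
  · intro hH
    by_cases him : IsImaginary F
    · exact gd_of_cyclic hT hF him hH
    · exact gd_real hT hF him

end Pool.Agent.Results.MP_b23d8d_ag.CyclicFieldsSuffice
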