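import Pool.Agent.Helper84.GD.Thy

/-!
# The Gross-Deligne conjecture for varieties of bounded dimension and trilinear forms with a small block

`k = ℚ̄ ⊆ ℂ`, `C` is the category of motives over `k` for absolute Hodge cycles and
`R` the realization: for a motive `M` the rational vector space `H_B(M)`, the vector space
`H_dR(M)` over `k`, the comparison isomorphism and the Hodge decomposition. For a separated scheme `X` of
finite type over `k` the object `G i w X` of `C` is the graded piece of weight `w` of the cohomology
`H^i_c(X)` with compact support; for smooth proper `X` the object `G m m X` is `H^m(X)`.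

`GrossDeligne d h N`, for `N = R(M)`, is the statement of the conjecture for the sub-Hodge structures
`H ⊆ H_B(M)` with multiplication by subfields `F` of the `d`-th cyclotomic field such that the
Hodge type is `p(λ) = h(λ) + c`, with a constant `c`.
-/

set_option autoImplicit false

open CategoryTheory CategoryTheory.Limits AlgebraicGeometry
open Pool.Agent.Y116.UV Pool.Agent.Helper11U Pool.Agent.Helper84.GD

universe v u

namespace Pool.Agent.Results.MP_b23d8d_ag.Dimension

/-- **Theorem.** For every `n` (also `n = ∞`), every level `d ≥ 2` and every Hodge type `h`, the
Gross-Deligne conjecture holds for the sub-Hodge structures of level `d` and type `h` of `H^m(X)`, for all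
smooth proper schemes `X` over `k` of dimension at most `n` and all `m`, if and only if it holds for those
of the graded pieces of `H^i_c` of the hypersurfaces `T(x, y, z) = 1`, for all trilinear forms `T` over `k`
such that one of the three blocks of variables has at most `n + 2` elements. -/
theorem result {k : Type} [Field k] [Algebra k ℂ] [CharZero k] [IsAlgClosed k]
    [Algebra.IsAlgebraic ℚ k] {C : Type u} [Category.{v} C] [Abelian C] {D : GrThy k C}
    {R : Realization k C} (hD : IsRealThy D R) (d : ℕ) [NeZero d] (hd : 2 ≤ d)
    (hKO : KoblitzOgus d) (h : (ZMod d)ˣ → ℤ) (n : ℕ∞) :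
    ForSmoothProper (fun X => ∀ m : ℤ, GrossDeligne d h (R.obj (D.G m m X))) n ↔
      ForBlocks (fun X => ∀ i w : ℤ, GrossDeligne d h (R.obj (D.G i w X))) (n + 2) :=
  class_blocks hD.gr hD.pure hD.resolution (isAdd_grossDeligne hD d hd h)
    (grossDeligne_point hD d hKO h) n

end Pool.Agent.Results.MP_b23d8d_ag.Dimension
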