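import Pool.Agent.Helper84.GD.Real
import Pool.Agent.Helper11U.Kuga

/-!
# The Gross-Deligne conjecture for trilinear forms governed by curves, quartic and Fermat surfaces

`k = ℚ̄ ⊆ ℂ`, `C` is the category of motives over `k` for absolute Hodge cycles and
`R` the realization: for a motive `M` the rational vector space `H_B(M)`, the vector space
`H_dR(M)` over `k`, the comparison isomorphism and the Hodge decomposition. For a separated scheme `X` of
finite type over `k` the object `G i w X` of `C` is the graded piece of weight `w` of the cohomology
`H^i_c(X)` with compact support.

`GrossDeligne d h N`, for `N = R(M)`, is the statement of the conjecture for the sub-Hodge structures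
`H ⊆ H_B(M)` with multiplication by subfields `F` of the `d`-th cyclotomic field such that the
Hodge type is `p(λ) = h(λ) + c`, with a constant `c`.

For a trilinear form `T(x, y, z) = ∑ T_{ijk} x_i y_j z_k` over `k` let `V_T` be the smooth affine hypersurface
`T(x, y, z) = 1`, and `Y_T` the affine scheme of the bilinear equations `∑_{ij} T_{ijk} x_i y_j = 0`. Their
dimensions are arbitrary. If there are at most four variables `z`, then they are assembled from the closed
subschemes of the affine space of dimension three which are defined by minors of the matrix of
linear forms `T(z)_{ij} = ∑_k T_{ijk} z_k`.

The known case (`hav`) is the category `M_k^av` generated by Artin motives and abelian varieties: by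
Deligne's theorem that Hodge classes on abelian varieties are absolute Hodge classes, a sub-Hodge structure
`H` of a motive in `M_k^av` with multiplication by `F` is a direct summand, and, as a motive with
multiplication by `F`, a tensor product over `F` of powers of `H^1` of abelian varieties with complex
multiplication by `F` and of Tate motives; for these one has Anderson's theorem; finally the products of
values of the gamma function for two choices of `ε` agree up to algebraic factors by the theorem of Koblitz
and Ogus.
-/

set_option autoImplicit false

open CategoryTheory CategoryTheory.Limits AlgebraicGeometry
open Pool.Agent.Y116.UV Pool.Agent.Helper11U Pool.Agent.Helper84.GD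

universe v u

namespace Pool.Agent.Results.MP_b23d8d_ag.QuarticSurfaces

/-- The known case of the Gross-Deligne conjecture: the motives in `M_k^av` (Deligne, Anderson,
Koblitz-Ogus). -/
def KnownForAbelianType {k : Type} [Field k] [Algebra k ℂ] {C : Type u} [Category.{v} C]
    (R : Realization k C) (AV : C → Prop) : Prop :=
  ∀ M, AV M → ∀ (d : ℕ) [NeZero d], 2 ≤ d → ∀ h : (ZMod d)ˣ → ℤ, GrossDeligne d h (R.obj M)

/-- **Theorem.** The Gross-Deligne conjecture is true for all sub-Hodge structures with multiplication by
abelian fields of all motives which are obtained by direct sums, direct summands, tensor products and Tate
twists from the graded pieces of `H^i_c` of the hypersurfaces `T(x, y, z) = 1` and of the affine schemes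
of the bilinear equations `T_k(x, y) = 0`, for all trilinear forms `T` over `k` such that one of the three
blocks of variables has at most three elements, or two blocks have at most four elements, or there are at
most four variables `z` and every minor of the matrix of linear forms `T(z)` is a product of polynomials of
degree at most four and of polynomials with at most four terms. -/
theorem result {k : Type} [Field k] [Algebra k ℂ] [CharZero k] [IsAlgClosed k]
    [Algebra.IsAlgebraic ℚ k] {C : Type u} [Category.{v} C] [Abelian C] [MonoidalCategory C]
    {D : GrThy k C} {R : Realization k C} {AV : C → Prop} (hA : IsAvThy D AV)
    (hav : KnownForAbelianType R AV) (M : C) (hM : Generated D QuarticType M) (d : ℕ) [NeZero d]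
    (hd : 2 ≤ d) (h : (ZMod d)ˣ → ℤ) : GrossDeligne d h (R.obj M) :=
  hav M (av_generated hA hM) d hd h

end Pool.Agent.Results.MP_b23d8d_ag.QuarticSurfaces
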