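import Pool.Agent.Helper84.GD.Univ

/-!
# The Gross-Deligne conjecture and the hypersurfaces `∑_{(i, j, l) ∈ E} x_i y_j z_l = 1`

`k = ℚ̄ ⊆ ℂ`, `C` is the category of motives over `k` for absolute Hodge cycles and
`R` the realization: for a motive `M` the rational vector space `H_B(M)`, the vector space
`H_dR(M)` over `k`, the comparison isomorphism and the Hodge decomposition. For a separated scheme `X` of
finite type over `k` the object `G i w X` of `C` is the graded piece of weight `w` of the cohomology
`H^i_c(X)` with compact support; for smooth proper `X` the object `G m m X` is `H^m(X)`.

`GrossDeligne d h N`, for `N = R(M)`, is the statement of the conjecture for the sub-Hodge structures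
`H ⊆ H_B(M)` with multiplication by subfields `F` of the `d`-th cyclotomic field such that the
Hodge type is `p(λ) = h(λ) + c`, with a constant `c`. Every abelian field `F` is a subfield of the `d`-th
cyclotomic field, where `d` is its conductor (the trivial case `F = ℚ` is contained in the statements for
`d ≥ 2`, as `ℚ` is a subfield of all cyclotomic fields). So Q1 for `X` is the statement for all `d`, `h`.

The proof uses that the property `GrossDeligne d h` is additive. This is not obvious: a sub-Hodge
structure `H ⊆ M ⊕ N` with multiplication by `F` may have nonzero intersections with `M` and with `N`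
which are not stable under `F`, and as Hodge classes are not known to be absolute Hodge classes one
cannot split `H` off. Here is the argument (`Pool.Agent.Helper84.GD.grossDeligne_of_maps`). Write
`H = F`. Consider the subspaces of `F` which are the intersections of kernels of maps
`x ↦ pr(f x)`, where `f ∈ F` and `pr` is one of the projections to `M` and `N`; a minimal one which
contains `1` is a subfield `K` of `F`, and one of the projections is injective on `K`. So `K` is a
sub-Hodge structure of `M` or of `N` with multiplication by `K`. The de Rham classes which span the lines of
`H`, the Hodge types and the periods of `H` depend only on the restrictions of the embeddings to `K`, up to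
algebraic factors, since `K` is the set of solutions of a system of linear equations which are
defined over `k` for the de Rham structure.
-/

set_option autoImplicit false

open CategoryTheory CategoryTheory.Limits AlgebraicGeometry
open Pool.Agent.Y116.UV Pool.Agent.Helper11U Pool.Agent.Helper84.GD

universe v u

namespace Pool.Agent.Results.MP_b23d8d_ag.Universality

/-- **Theorem.** For every level `d ≥ 2` and every Hodge type `h`, the Gross-Deligne conjecture holds for
the sub-Hodge structures of level `d` and type `h` of `H^m(X)`, for all smooth proper schemes `X` over `k`
and all `m`, if and only if it holds for those of the graded pieces of `H^i_c` of the hypersurfaces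
`∑_{(i, j, l) ∈ E} x_i y_j z_l = 1`, for all finite sets `E` of triples. -/
theorem result {k : Type} [Field k] [Algebra k ℂ] [CharZero k] [IsAlgClosed k]
    [Algebra.IsAlgebraic ℚ k] {C : Type u} [Category.{v} C] [Abelian C] {D : GrThy k C}
    {R : Realization k C} (hD : IsRealThy D R) (hc : Clopen D) (d : ℕ) [NeZero d] (hd : 2 ≤ d)
    (hKO : KoblitzOgus d) (h : (ZMod d)ˣ → ℤ) :
    (∀ X : Sch k, FT True X → IsProper X.hom → Smooth X.hom → ∀ m : ℤ,
      GrossDeligne d h (R.obj (D.G m m X))) ↔
      ∀ (a b c : ℕ) (E : Finset (Fin a × Fin b × Fin c)) (i w : ℤ),
        GrossDeligne d h (R.obj (D.G i w (tripS k E))) := by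
  rw [← trip_class hD.gr hD.pure hD.resolution hc (isAdd_grossDeligne hD d hd h)
    (grossDeligne_point hD d hKO h)]
  exact ⟨fun h1 X hX h2 h3 _ => h1 X hX h2 h3, fun h1 X hX h2 h3 => h1 X hX h2 h3 le_top⟩

end Pool.Agent.Results.MP_b23d8d_ag.Universality
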